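import Mathlib

/-!
# CV3A: PURE MATHLIB: maximal minors
-/

namespace Pool.Agent.Lib.H89N

open Matrix

noncomputable section

/-- A matrix with linearly independent rows has a maximal minor which is not zero. PROOF. The rank of `M` is `|α|` (`LinearIndependent.rank_matrix`), so the columns span `α → F` (`Matrix.rank_eq_finrank_span_cols`, equality of dimensions).
`exists_linearIndependent` gives a subset of the set of columns which is a basis of `α → F`; it has `|α|` elements. Choose for every element an index; this gives `φ`. The columns of `M.submatrix id φ` are linearly independent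
(`Matrix.linearIndependent_cols_iff_isUnit`). -/
theorem exists_minor {F α β : Type} [Field F] [Fintype α] [DecidableEq α] [Fintype β] (M : Matrix α β F)
    (h : LinearIndependent F M.row) : ∃ φ : α → β, Function.Injective φ ∧ (M.submatrix id φ).det ≠ 0 := by
  classical
  have hrk : M.rank = Fintype.card α := LinearIndependent.rank_matrix h
  have hspan : Submodule.span F (Set.range M.col) = ⊤ := by
    apply Submodule.eq_top_of_finrank_eq
    rw [← Matrix.rank_eq_finrank_span_cols, hrk, Module.finrank_fintype_fun_eq_card]
  obtain ⟨b, hb, hbs, hli⟩ := exists_linearIndependent F (Set.range M.col)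
  have hbf : b.Finite := (Set.finite_range M.col).subset hb
  have hbt : ⊤ ≤ Submodule.span F (Set.range (fun x : b => (x : α → F))) := by
    rw [Subtype.range_coe, hbs, hspan]
  let B : Module.Basis b F (α → F) := Module.Basis.mk hli hbt
  have : Fintype b := hbf.fintype
  have hcard : Fintype.card α = Fintype.card b := by
    rw [← Module.finrank_fintype_fun_eq_card F (η := α), Module.finrank_eq_card_basis B]
  let e : α ≃ b := Fintype.equivOfCardEq hcard
  have hch : ∀ x : b, ∃ j : β, M.col j = (x : α → F) := fun x => hb x.2
  choose φ hφ using hch
  refine ⟨fun a => φ (e a), ?_, ?_⟩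
  · intro a a' haa
    have h1 : ((e a : b) : α → F) = (e a' : b) := by
      rw [← hφ (e a), ← hφ (e a')]
      exact congrArg M.col haa
    exact e.injective (Subtype.ext h1)
  · have h1 : LinearIndependent F (M.submatrix id (fun a => φ (e a))).col := by
      have h2 : (M.submatrix id (fun a => φ (e a))).col = fun a => ((e a : b) : α → F) := by
        funext a
        rw [← hφ (e a)]
        rfl
      rw [h2]
      exact hli.comp e e.injective
    have h3 := (Matrix.linearIndependent_cols_iff_isUnit).1 h1
    exact ((Matrix.isUnit_iff_isUnit_det _).1 h3).ne_zero

end

end Pool.Agent.Lib.H89N
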